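import Mathlib

/-!
# Cohomology of symmetric groups with coefficients in `FI_d`-modules

We disprove the assertion that for a finitely generated `FI_d`-module `V` over a field `k`
the function `n ↦ dim_k H^t(S_n, V_n)` is eventually a quasi-polynomial of degree at most `d - 1`:
for every field `k` of positive characteristic and every `d ≥ 2` it fails already for `t = 0`.
-/

open CategoryTheory

namespace Pool.Agent.Results.MP_93a4b1_al.NotQuasiPolynomial

/-- Objects of `FI_d`: finite sets (finite types in `Type`). -/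
structure FId (d : ℕ) where
  /-- the underlying set -/
  carrier : Type
  /-- it is finite -/
  fin : Finite carrier

attribute [instance] FId.fin

/-- A morphism `A → B` in `FI_d`: an injection `inj : A → B` and an arbitrary
function `col : B \ inj(A) → [d]`. -/
structure FIdHom {d : ℕ} (A B : FId d) where
  /-- the injection -/
  inj : A.carrier ↪ B.carrier
  /-- the colouring of the complement of the image -/
  col : {b : B.carrier // b ∉ Set.range inj} → Fin d

namespace FIdHom

variable {d : ℕ} {A B C : FId d}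

/-- The identity morphism. -/
def idHom (A : FId d) : FIdHom A A where
  inj := Function.Embedding.refl _
  col b := absurd ⟨b.1, rfl⟩ b.2

/-- Composition: compose the injections; a new point keeps the colour it was given. -/
noncomputable def compHom (f : FIdHom A B) (g : FIdHom B C) : FIdHom A C where
  inj := f.inj.trans g.inj
  col c := open Classical in
    if h : ∃ b, g.inj b = c.1 then
      f.col ⟨h.choose, fun ⟨a, ha⟩ => c.2 ⟨a, by
        rw [Function.Embedding.trans_apply, ha]; exact h.choose_spec⟩⟩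
    else g.col ⟨c.1, fun ⟨b, hb⟩ => h ⟨b, hb⟩⟩

theorem ext' {f g : FIdHom A B} (h1 : ∀ a, f.inj a = g.inj a)
    (h2 : ∀ b hb hb', f.col ⟨b, hb⟩ = g.col ⟨b, hb'⟩) : f = g := by
  obtain ⟨fi, fc⟩ := f
  obtain ⟨gi, gc⟩ := g
  have h : fi = gi := Function.Embedding.ext h1
  subst h
  congr
  funext b
  exact h2 b.1 b.2 b.2

theorem compHom_col_of_mem (f : FIdHom A B) (g : FIdHom B C) (b : B.carrier)
    (hb : b ∉ Set.range f.inj) (hc : g.inj b ∉ Set.range (f.inj.trans g.inj)) :
    (compHom f g).col ⟨g.inj b, hc⟩ = f.col ⟨b, hb⟩ := by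
  classical
  have h : ∃ b', g.inj b' = g.inj b := ⟨b, rfl⟩
  have hcb : h.choose = b := g.inj.injective h.choose_spec
  show (if h : ∃ b', g.inj b' = g.inj b then _ else _) = _
  rw [dif_pos h]
  congr

theorem compHom_col_of_notMem (f : FIdHom A B) (g : FIdHom B C) (c : C.carrier)
    (hb : c ∉ Set.range g.inj) (hc : c ∉ Set.range (f.inj.trans g.inj)) :
    (compHom f g).col ⟨c, hc⟩ = g.col ⟨c, hb⟩ := by
  classical
  have h : ¬ ∃ b', g.inj b' = c := fun ⟨b, hb'⟩ => hb ⟨b, hb'⟩
  show (if h : ∃ b', g.inj b' = c then _ else _) = _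
  rw [dif_neg h]

end FIdHom

open FIdHom

/-- The category `FI_d`. -/
noncomputable instance (d : ℕ) : Category (FId d) where
  Hom A B := FIdHom A B
  id A := idHom A
  comp f g := compHom f g
  id_comp {A B} f := by
    refine ext' (fun a => rfl) ?_
    intro b hb hb'
    exact compHom_col_of_notMem _ _ _ hb' _
  comp_id {A B} f := by
    refine ext' (fun a => rfl) ?_
    intro b hb hb'
    exact compHom_col_of_mem f (idHom B) b hb' _
  assoc {A B C D} f g h := by
    refine ext' (fun a => rfl) ?_
    intro x hx hx'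
    by_cases h1 : x ∈ Set.range h.inj
    · obtain ⟨c, rfl⟩ := h1
      by_cases h2 : c ∈ Set.range g.inj
      · obtain ⟨b, rfl⟩ := h2
        have h3 : b ∉ Set.range f.inj := fun ⟨a, ha⟩ => hx ⟨a, by
          show h.inj (g.inj (f.inj a)) = _
          rw [ha]⟩
        have h4 : g.inj b ∉ Set.range (f.inj.trans g.inj) := fun ⟨a, ha⟩ => hx ⟨a, by
          show h.inj (g.inj (f.inj a)) = _
          exact congrArg _ ha⟩
        rw [compHom_col_of_mem (compHom f g) h (g.inj b) h4]
        rw [compHom_col_of_mem f g b h3]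
        exact (compHom_col_of_mem f (compHom g h) b h3 hx').symm
      · have h4 : c ∉ Set.range (f.inj.trans g.inj) := fun ⟨a, ha⟩ => h2 ⟨f.inj a, ha⟩
        have h5 : h.inj c ∉ Set.range (g.inj.trans h.inj) := fun ⟨a, ha⟩ => h2 ⟨a, h.inj.injective ha⟩
        rw [compHom_col_of_mem (compHom f g) h c h4]
        rw [compHom_col_of_notMem f g c h2]
        rw [compHom_col_of_notMem f (compHom g h) (h.inj c) h5]
        rw [compHom_col_of_mem g h c h2]
    · have h5 : x ∉ Set.range (g.inj.trans h.inj) := fun ⟨a, ha⟩ => h1 ⟨g.inj a, ha⟩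
      rw [compHom_col_of_notMem (compHom f g) h x h1]
      rw [compHom_col_of_notMem f (compHom g h) x h5]
      rw [compHom_col_of_notMem g h x h1]

/-- The object `[n] = {1, …, n}` of `FI_d`. -/
def FId.ofNat (d n : ℕ) : FId d := ⟨Fin n, inferInstance⟩


/-- An `FI_d`-module over `k`: a functor from `FI_d` to `k`-vector spaces. -/
abbrev FIdModule (k : Type) [Field k] (d : ℕ) := FId d ⥤ ModuleCat.{0} k

/-- The automorphism `(σ, ∅)` of `[n]` in `FI_d` given by a permutation `σ`. -/
def permHom (d : ℕ) {n : ℕ} (σ : Equiv.Perm (Fin n)) : FId.ofNat d n ⟶ FId.ofNat d n :=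
  (⟨σ.toEmbedding, fun b => absurd ⟨σ.symm b.1, σ.apply_symm_apply _⟩ b.2⟩ :
    FIdHom (FId.ofNat d n) (FId.ofNat d n))

theorem permHom_one (d n : ℕ) : permHom d (1 : Equiv.Perm (Fin n)) = 𝟙 _ := by
  refine ext' (fun a => rfl) ?_
  intro b hb hb'
  exact absurd ⟨b, rfl⟩ hb'

theorem permHom_mul (d : ℕ) {n : ℕ} (σ τ : Equiv.Perm (Fin n)) :
    permHom d (σ * τ) = permHom d τ ≫ permHom d σ := by
  refine ext' (fun a => rfl) ?_
  intro b hb hb'
  exact absurd ⟨(σ * τ).symm b, (σ * τ).apply_symm_apply _⟩ hb

section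

variable {k : Type} [Field k] {d : ℕ}

/-- The representation of the symmetric group on `V_n = V([n])`. -/
noncomputable def symRep (V : FIdModule k d) (n : ℕ) :
    Representation k (Equiv.Perm (Fin n)) (V.obj (FId.ofNat d n)) where
  toFun σ := (V.map (permHom d σ)).hom
  map_one' := by
    rw [permHom_one, V.map_id]
    rfl
  map_mul' σ τ := by
    rw [permHom_mul, V.map_comp]
    rfl

/-- `dim_k H^t(S_n, V_n)`. -/
noncomputable def cohDim (V : FIdModule k d) (t n : ℕ) : ℕ :=
  Module.finrank k (groupCohomology (Rep.of (symRep V n)) t)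

/-- A sub-functor of an `FI_d`-module. -/
structure SubFunctor (V : FIdModule k d) where
  /-- the subspaces -/
  sub : ∀ A : FId d, Submodule k (V.obj A)
  /-- which are stable under all morphisms -/
  map_mem : ∀ {A B : FId d} (f : A ⟶ B) (x : V.obj A), x ∈ sub A → (V.map f).hom x ∈ sub B

/-- `V` is finitely generated: there are finitely many elements `v i ∈ V_{n i}` such that no
proper sub-functor contains all of them. -/
def FinitelyGenerated (V : FIdModule k d) : Prop :=
  ∃ (m : ℕ) (n : Fin m → ℕ) (v : ∀ i : Fin m, V.obj (FId.ofNat d (n i))),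
    ∀ N : SubFunctor V, (∀ i, v i ∈ N.sub (FId.ofNat d (n i))) → ∀ A, N.sub A = ⊤

end

/-- `f` is a quasi-polynomial of degree at most `D`. -/
def IsQuasiPolynomial (D : ℕ) (f : ℕ → ℤ) : Prop :=
  ∃ N : ℕ, 1 ≤ N ∧ ∃ p : ℕ → Polynomial ℚ, (∀ i < N, (p i).natDegree ≤ D) ∧
    ∀ n : ℕ, (f n : ℚ) = (p (n % N)).eval (n : ℚ)

/-- `f` agrees for all sufficiently large `n` with a quasi-polynomial of degree at most `D`. -/
def EventuallyQuasiPolynomial (D : ℕ) (f : ℕ → ℤ) : Prop :=
  ∃ g : ℕ → ℤ, IsQuasiPolynomial D g ∧ ∀ᶠ n in Filter.atTop, f n = g n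

/-! ### The module -/

section construction

variable {d : ℕ} {A B C : FId d}

/-- push a two-coloured word forward along a morphism of `FI_d`: new points of colour `0`
get the letter `true`, all other new points get the letter `false`. -/
noncomputable def push (f : FIdHom A B) (w : A.carrier → Bool) : B.carrier → Bool :=
  fun b => open Classical in
    if h : ∃ a, f.inj a = b then w h.choose
    else decide ((f.col ⟨b, fun ⟨a, ha⟩ => h ⟨a, ha⟩⟩).val = 0)

theorem push_inj (f : FIdHom A B) (w : A.carrier → Bool) (a : A.carrier) :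
    push f w (f.inj a) = w a := by
  classical
  have h : ∃ a', f.inj a' = f.inj a := ⟨a, rfl⟩
  show (if h : ∃ a', f.inj a' = f.inj a then w h.choose else _) = _
  rw [dif_pos h, f.inj.injective h.choose_spec]

theorem push_notMem (f : FIdHom A B) (w : A.carrier → Bool) (b : B.carrier)
    (hb : b ∉ Set.range f.inj) :
    push f w b = decide ((f.col ⟨b, hb⟩).val = 0) := by
  classical
  have h : ¬ ∃ a', f.inj a' = b := fun ⟨a, ha⟩ => hb ⟨a, ha⟩
  show (if h : ∃ a', f.inj a' = b then w h.choose else _) = _
  rw [dif_neg h]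

theorem push_id (w : A.carrier → Bool) : push (idHom A) w = w := by
  funext a
  exact push_inj (idHom A) w a

theorem push_comp (f : FIdHom A B) (g : FIdHom B C) (w : A.carrier → Bool) :
    push (compHom f g) w = push g (push f w) := by
  funext c
  by_cases h1 : c ∈ Set.range g.inj
  · obtain ⟨b, rfl⟩ := h1
    rw [push_inj]
    by_cases h2 : b ∈ Set.range f.inj
    · obtain ⟨a, rfl⟩ := h2
      rw [push_inj]
      exact push_inj (compHom f g) w a
    · have h4 : g.inj b ∉ Set.range (compHom f g).inj := fun ⟨a, ha⟩ => h2 ⟨a, g.inj.injective ha⟩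
      rw [push_notMem _ _ _ h4, push_notMem _ _ _ h2]
      rw [compHom_col_of_mem f g b h2]
  · have h4 : c ∉ Set.range (compHom f g).inj := fun ⟨a, ha⟩ => h1 ⟨f.inj a, ha⟩
    rw [push_notMem _ _ _ h4, push_notMem _ _ _ h1]
    rw [compHom_col_of_notMem f g c h1]

/-- number of letters `true` -/
noncomputable def cnt {X : Type} (w : X → Bool) : ℕ := Nat.card {a // w a = true}

/-- the number of new points of colour `0` -/
noncomputable def off (f : FIdHom A B) : ℕ :=
  Nat.card {b : {b : B.carrier // b ∉ Set.range f.inj} // (f.col b).val = 0}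

theorem cnt_push (f : FIdHom A B) (w : A.carrier → Bool) :
    cnt (push f w) = cnt w + off f := by
  classical
  unfold cnt off
  rw [← Nat.card_sum]
  refine Nat.card_congr (Equiv.symm (Equiv.ofBijective
    (Sum.elim (fun a => ⟨f.inj a.1, by rw [push_inj]; exact a.2⟩)
      (fun b => ⟨b.1.1, by rw [push_notMem _ _ _ b.1.2]; simpa using b.2⟩)) ⟨?_, ?_⟩))
  · rintro (⟨a, ha⟩ | ⟨⟨b, hb⟩, hb'⟩) (⟨a', ha'⟩ | ⟨⟨b', hb1⟩, hb2⟩) h
    · simp only [Sum.elim_inl, Subtype.mk.injEq] at h
      have := f.inj.injective h
      subst this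
      rfl
    · simp only [Sum.elim_inl, Sum.elim_inr, Subtype.mk.injEq] at h
      exact absurd ⟨a, h⟩ hb1
    · simp only [Sum.elim_inl, Sum.elim_inr, Subtype.mk.injEq] at h
      exact absurd ⟨a', h.symm⟩ hb
    · simp only [Sum.elim_inr, Subtype.mk.injEq] at h
      subst h
      rfl
  · rintro ⟨b, hb⟩
    by_cases h1 : b ∈ Set.range f.inj
    · obtain ⟨a, rfl⟩ := h1
      refine ⟨Sum.inl ⟨a, ?_⟩, rfl⟩
      rwa [push_inj] at hb
    · refine ⟨Sum.inr ⟨⟨b, h1⟩, ?_⟩, rfl⟩
      rw [push_notMem _ _ _ h1] at hb
      simpa using hb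

end construction

section module

variable (k : Type) [Field k] {d : ℕ} {A B C : FId d}

/-- The linear map which sends a word to the number of its letters `true`. -/
noncomputable def eps (X : Type) : ((X → Bool) →₀ k) →ₗ[k] (ℕ →₀ k) :=
  Finsupp.lmapDomain k k cnt

theorem eps_push (f : FIdHom A B) (x : (A.carrier → Bool) →₀ k) :
    eps k B.carrier (Finsupp.lmapDomain k k (push f) x) =
      Finsupp.lmapDomain k k (fun j => j + off f) (eps k A.carrier x) := by
  unfold eps
  rw [Finsupp.lmapDomain_apply, Finsupp.lmapDomain_apply, Finsupp.lmapDomain_apply,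
    Finsupp.lmapDomain_apply, ← Finsupp.mapDomain_comp, ← Finsupp.mapDomain_comp]
  congr 1
  funext w
  exact cnt_push f w

/-- The induced map on the kernels of `eps`. -/
noncomputable def mapKer (f : FIdHom A B) :
    LinearMap.ker (eps k A.carrier) →ₗ[k] LinearMap.ker (eps k B.carrier) :=
  (Finsupp.lmapDomain k k (push f)).restrict (by
    intro x hx
    rw [LinearMap.mem_ker] at hx ⊢
    rw [eps_push, hx, map_zero])

theorem mapKer_val (f : FIdHom A B) (x : LinearMap.ker (eps k A.carrier)) :
    (mapKer k f x).1 = Finsupp.mapDomain (push f) x.1 := rfl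

variable (d) in
/-- The `FI_d`-module. `V_n` is the space of linear combinations of words of length `n` in two
letters such that for every `j` the coefficients of the words with exactly `j` letters `true`
sum to zero. -/
noncomputable def wordMod : FIdModule k d where
  obj A := ModuleCat.of k (LinearMap.ker (eps k A.carrier))
  map {A B} f := ModuleCat.ofHom (mapKer k f)
  map_id A := by
    refine ModuleCat.hom_ext (LinearMap.ext fun x => Subtype.ext ?_)
    show Finsupp.mapDomain (push (idHom A)) x.1 = x.1
    have : push (idHom A) = id := funext fun w => push_id w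
    rw [this, Finsupp.mapDomain_id]
  map_comp {A B C} f g := by
    refine ModuleCat.hom_ext (LinearMap.ext fun x => Subtype.ext ?_)
    show Finsupp.mapDomain (push (compHom f g)) x.1 =
      Finsupp.mapDomain (push g) (Finsupp.mapDomain (push f) x.1)
    rw [← Finsupp.mapDomain_comp]
    congr 1
    funext w
    exact push_comp f g w

end module

/-! ### Finite generation -/

section fg

theorem exists_perm {X : Type} [Finite X] (w w' : X → Bool) (h : cnt w = cnt w') :
    ∃ σ : Equiv.Perm X, w' = w ∘ σ := by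
  classical
  have := Fintype.ofFinite X
  have e : {a // w' a = true} ≃ {a // w a = true} := by
    refine Classical.choice (Finite.card_eq.mp ?_)
    exact h.symm
  refine ⟨e.extendSubtype, ?_⟩
  funext x
  by_cases hx : w' x = true
  · have h1 : w (e.extendSubtype x) = true := e.extendSubtype_mem x hx
    simp [hx, h1]
  · have h1 : ¬ w (e.extendSubtype x) = true := e.extendSubtype_not_mem x hx
    simp only [Bool.not_eq_true] at hx h1
    simp [hx, h1]

theorem cnt_comp_perm {X : Type} (w : X → Bool) (σ : Equiv.Perm X) : cnt (w ∘ σ) = cnt w := by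
  unfold cnt
  refine Nat.card_congr ?_
  exact σ.subtypeEquiv (fun a => Iff.rfl)

variable (k : Type) [Field k] {d : ℕ}

theorem sub_mem_ker {X : Type} (w w' : X → Bool) (h : cnt w = cnt w') :
    Finsupp.single w (1 : k) - Finsupp.single w' 1 ∈ LinearMap.ker (eps k X) := by
  rw [LinearMap.mem_ker, map_sub]
  unfold eps
  rw [Finsupp.lmapDomain_apply, Finsupp.lmapDomain_apply, Finsupp.mapDomain_single,
    Finsupp.mapDomain_single, h, sub_self]

/-- the generator -/
noncomputable def gen : (wordMod k d).obj (FId.ofNat d 2) :=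
  (⟨Finsupp.single (![true, false] : Fin 2 → Bool) 1 -
    Finsupp.single (![false, true] : Fin 2 → Bool) 1, sub_mem_ker k _ _ (by
      have : (![false, true] : Fin 2 → Bool) = ![true, false] ∘ Equiv.swap 0 1 := by
        funext i; fin_cases i <;> rfl
      rw [this, cnt_comp_perm])⟩ : LinearMap.ker (eps k (Fin 2)))

theorem swap_mem {A : FId d} (hd : 2 ≤ d) (N : SubFunctor (wordMod k d))
    (hN : gen k ∈ N.sub (FId.ofNat d 2)) (w : A.carrier → Bool) (a b : A.carrier)
    (ha : w a = true) (hb : w b = false) [DecidableEq A.carrier] :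
    Finsupp.single w (1 : k) - Finsupp.single (w ∘ Equiv.swap a b) 1 ∈
      (N.sub A).map (LinearMap.ker (eps k A.carrier)).subtype := by
  have hab : a ≠ b := by
    rintro rfl
    rw [ha] at hb
    exact Bool.noConfusion hb
  let f : FIdHom (FId.ofNat d 2) A :=
    { inj := ⟨(![a, b] : Fin 2 → A.carrier), by
        have hinj : Function.Injective (![a, b] : Fin 2 → A.carrier) := by
          intro i j h
          fin_cases i <;> fin_cases j
          · rfl
          · exact absurd h hab
          · exact absurd h hab.symm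
          · rfl
        exact hinj⟩
      col := fun c => if w c.1 = true then ⟨0, by omega⟩ else ⟨1, by omega⟩ }
  have f0 : f.inj (0 : Fin 2) = a := rfl
  have f1 : f.inj (1 : Fin 2) = b := rfl
  have hcol : ∀ c (hc : c ∉ Set.range f.inj), decide ((f.col ⟨c, hc⟩).val = 0) = w c := by
    intro c hc
    show decide ((if w c = true then (⟨0, by omega⟩ : Fin d) else ⟨1, by omega⟩).val = 0) = w c
    by_cases h : w c = true
    · simp [h]
    · simp only [Bool.not_eq_true] at h
      simp [h]
  have key1 : push f (![true, false] : Fin 2 → Bool) = w := by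
    funext c
    by_cases hc : c ∈ Set.range f.inj
    · obtain ⟨i, rfl⟩ := hc
      rw [push_inj]
      change Fin 2 at i
      fin_cases i
      · exact ha.symm
      · exact hb.symm
    · rw [push_notMem _ _ _ hc, hcol]
  have key2 : push f (![false, true] : Fin 2 → Bool) = w ∘ Equiv.swap a b := by
    funext c
    by_cases hc : c ∈ Set.range f.inj
    · obtain ⟨i, rfl⟩ := hc
      rw [push_inj]
      change Fin 2 at i
      fin_cases i
      · show false = w (Equiv.swap a b a)
        rw [Equiv.swap_apply_left, hb]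
      · show true = w (Equiv.swap a b b)
        rw [Equiv.swap_apply_right, ha]
    · rw [push_notMem _ _ _ hc, hcol]
      have h1 : c ≠ a := fun h => hc ⟨(0 : Fin 2), h.symm ▸ f0⟩
      have h2 : c ≠ b := fun h => hc ⟨(1 : Fin 2), h.symm ▸ f1⟩
      simp [Equiv.swap_apply_of_ne_of_ne h1 h2]
  refine ⟨_, N.map_mem (A := FId.ofNat d 2) (B := A) f (gen k) hN, ?_⟩
  let pf : (Fin 2 → Bool) → (A.carrier → Bool) := push f
  have h3 : (LinearMap.ker (eps k A.carrier)).subtype
      (((wordMod k d).map (X := FId.ofNat d 2) (Y := A) f).hom (gen k)) =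
    Finsupp.mapDomain pf (Finsupp.single (![true, false] : Fin 2 → Bool) (1 : k) -
      Finsupp.single (![false, true] : Fin 2 → Bool) 1) := rfl
  rw [h3]
  have key1' : pf ![true, false] = w := key1
  have key2' : pf ![false, true] = w ∘ Equiv.swap a b := key2
  rw [Finsupp.mapDomain_sub, Finsupp.mapDomain_single, Finsupp.mapDomain_single, key1', key2']

theorem perm_mem {A : FId d} (hd : 2 ≤ d) (N : SubFunctor (wordMod k d))
    (hN : gen k ∈ N.sub (FId.ofNat d 2)) (σ : Equiv.Perm A.carrier) :
    ∀ w : A.carrier → Bool, Finsupp.single w (1 : k) - Finsupp.single (w ∘ σ) 1 ∈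
      (N.sub A).map (LinearMap.ker (eps k A.carrier)).subtype := by
  classical
  induction σ using Equiv.Perm.swap_induction_on with
  | one =>
    intro w
    have : w ∘ (1 : Equiv.Perm A.carrier) = w := rfl
    rw [this, sub_self]
    exact Submodule.zero_mem _
  | swap_mul f x y hxy ih =>
    intro w
    have h1 : w ∘ (Equiv.swap x y * f : Equiv.Perm A.carrier) = (w ∘ Equiv.swap x y) ∘ f := rfl
    rw [h1]
    have h2 : Finsupp.single w (1 : k) - Finsupp.single ((w ∘ Equiv.swap x y) ∘ f) 1 =
      (Finsupp.single w (1 : k) - Finsupp.single (w ∘ Equiv.swap x y) 1) +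
      (Finsupp.single (w ∘ Equiv.swap x y) (1 : k) -
        Finsupp.single ((w ∘ Equiv.swap x y) ∘ f) 1) := by abel
    rw [h2]
    refine Submodule.add_mem _ ?_ (ih _)
    cases hx : w x <;> cases hy : w y
    · have : w ∘ Equiv.swap x y = w := by
        funext c
        by_cases h1 : c = x
        · subst h1; simp [hx, hy]
        · by_cases h2 : c = y
          · subst h2; simp [hx, hy]
          · simp [Equiv.swap_apply_of_ne_of_ne h1 h2]
      rw [this, sub_self]
      exact Submodule.zero_mem _
    · rw [Equiv.swap_comm]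
      exact swap_mem k hd N hN w y x hy hx
    · exact swap_mem k hd N hN w x y hx hy
    · have : w ∘ Equiv.swap x y = w := by
        funext c
        by_cases h1 : c = x
        · subst h1; simp [hx, hy]
        · by_cases h2 : c = y
          · subst h2; simp [hx, hy]
          · simp [Equiv.swap_apply_of_ne_of_ne h1 h2]
      rw [this, sub_self]
      exact Submodule.zero_mem _

theorem wordMod_fg (hd : 2 ≤ d) : FinitelyGenerated (wordMod k d) := by
  classical
  refine ⟨1, fun _ => 2, fun _ => gen k, ?_⟩
  intro N hN A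
  have hN' := hN 0
  let N' := (N.sub A).map (LinearMap.ker (eps k A.carrier)).subtype
  let r : ℕ → (A.carrier → Bool) :=
    fun j => if h : ∃ w : A.carrier → Bool, cnt w = j then h.choose else fun _ => false
  have hr : ∀ w : A.carrier → Bool, cnt w = cnt (r (cnt w)) := by
    intro w
    have h : ∃ w' : A.carrier → Bool, cnt w' = cnt w := ⟨w, rfl⟩
    show cnt w = cnt (if h : ∃ w' : A.carrier → Bool, cnt w' = cnt w then h.choose else _)
    rw [dif_pos h]
    exact h.choose_spec.symm
  have key : ∀ x : (A.carrier → Bool) →₀ k, x - Finsupp.mapDomain (fun w => r (cnt w)) x ∈ N' := by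
    intro x
    induction x using Finsupp.induction_linear with
    | zero => simp
    | add f g hf hg =>
      rw [Finsupp.mapDomain_add, add_sub_add_comm]
      exact Submodule.add_mem _ hf hg
    | single w c =>
      rw [Finsupp.mapDomain_single]
      obtain ⟨σ, hσ⟩ := exists_perm w (r (cnt w)) (hr w)
      have h1 := perm_mem k hd N hN' σ w
      rw [← hσ] at h1
      have h2 := Submodule.smul_mem _ c h1
      rw [smul_sub, Finsupp.smul_single, Finsupp.smul_single, smul_eq_mul, mul_one] at h2
      exact h2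
  rw [eq_top_iff]
  rintro x -
  have h1 := key x.1
  have h2 : Finsupp.mapDomain (fun w => r (cnt w)) x.1 = 0 := by
    have h3 : Finsupp.mapDomain cnt x.1 = 0 := x.2
    have h4 : Finsupp.mapDomain (fun w => r (cnt w)) x.1 =
        Finsupp.mapDomain r (Finsupp.mapDomain cnt x.1) := by
      rw [← Finsupp.mapDomain_comp]
      rfl
    rw [h4, h3, Finsupp.mapDomain_zero]
  rw [h2, sub_zero] at h1
  obtain ⟨y, hy, hyx⟩ := h1
  have : y = x := Subtype.ext hyx
  rw [← this]
  exact hy

end fg

/-! ### The invariants -/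

section invariants

theorem card_cnt (n j : ℕ) [DecidablePred fun w : Fin n → Bool => cnt w = j] :
    (Finset.univ.filter fun w : Fin n → Bool => cnt w = j).card = n.choose j := by
  classical
  have h0 : n.choose j = (Finset.powersetCard j (Finset.univ : Finset (Fin n))).card := by
    rw [Finset.card_powersetCard, Finset.card_univ, Fintype.card_fin]
  rw [h0]
  refine Finset.card_bij' (fun w _ => Finset.univ.filter fun i => w i = true)
    (fun s _ => fun i => decide (i ∈ s)) ?_ ?_ ?_ ?_
  · intro w hw
    rw [Finset.mem_filter] at hw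
    rw [Finset.mem_powersetCard]
    refine ⟨Finset.subset_univ _, ?_⟩
    rw [← hw.2]
    unfold cnt
    rw [Nat.card_eq_fintype_card, Fintype.card_subtype]
  · intro s hs
    rw [Finset.mem_powersetCard] at hs
    rw [Finset.mem_filter]
    refine ⟨Finset.mem_univ _, ?_⟩
    unfold cnt
    rw [Nat.card_eq_fintype_card, Fintype.card_subtype]
    rw [← hs.2]
    congr 1
    ext i
    simp
  · intro w hw
    funext i
    simp
  · intro s hs
    ext i
    simp

theorem cnt_le {n : ℕ} (w : Fin n → Bool) : cnt w ≤ n := by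
  unfold cnt
  rw [Nat.card_eq_fintype_card]
  exact (Fintype.card_subtype_le _).trans (by simp)

/-- standard word with `j` letters `true` -/
def stdWord (n j : ℕ) : Fin n → Bool := fun i => decide (i.val < j)

theorem cnt_stdWord {n j : ℕ} (h : j ≤ n) : cnt (stdWord n j) = j := by
  classical
  unfold cnt stdWord
  rw [Nat.card_eq_fintype_card, Fintype.card_subtype]
  simp only [decide_eq_true_eq]
  rw [Fin.card_filter_val_lt]
  omega

variable (k : Type) [Field k]

theorem eps_apply {n : ℕ} (x : (Fin n → Bool) →₀ k) (j : ℕ) :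
    eps k (Fin n) x j = ∑ w : Fin n → Bool, if cnt w = j then x w else 0 := by
  classical
  unfold eps
  rw [Finsupp.lmapDomain_apply, Finsupp.mapDomain, Finsupp.sum_fintype _ _ (by simp),
    Finsupp.finsetSum_apply]
  refine Finset.sum_congr rfl fun w _ => ?_
  rw [Finsupp.single_apply]

variable {d : ℕ}

variable (d) in
/-- `push` along a permutation -/
noncomputable def pushPerm {n : ℕ} (σ : Equiv.Perm (Fin n)) : (Fin n → Bool) → (Fin n → Bool) :=
  push (A := FId.ofNat d n) (B := FId.ofNat d n) (permHom d σ)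

theorem pushPerm_eq {n : ℕ} (σ : Equiv.Perm (Fin n)) :
    pushPerm d σ = fun w => w ∘ σ.symm := by
  funext w
  have h : ∀ a : Fin n, pushPerm d σ w (σ a) = w a := fun a =>
    push_inj (A := FId.ofNat d n) (B := FId.ofNat d n) (permHom d σ) w a
  funext i
  have h1 := h (σ.symm i)
  rw [Equiv.apply_symm_apply] at h1
  exact h1

/-- The invariants, described by coefficients. -/
theorem mem_invariants_iff {n : ℕ} (x : LinearMap.ker (eps k (Fin n))) :
    ((x : (wordMod k d).obj (FId.ofNat d n)) ∈ (symRep (wordMod k d) n).invariants) ↔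
      ∀ w w' : Fin n → Bool, cnt w = cnt w' → x.1 w = x.1 w' := by
  classical
  constructor
  · intro hx w w' hw
    obtain ⟨σ, rfl⟩ := exists_perm w w' hw
    have h1 := hx σ.symm
    have h2 : Finsupp.mapDomain (pushPerm d σ.symm) x.1 = x.1 := congrArg Subtype.val h1
    rw [pushPerm_eq] at h2
    have h4 : Function.Injective (fun w : Fin n → Bool => w ∘ σ.symm.symm) := by
      intro a b hab
      exact σ.surjective.injective_comp_right hab
    have h5 := Finsupp.mapDomain_apply h4 x.1 w
    rw [h2] at h5
    exact h5.symm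
  · intro h σ
    have h4 : Function.Injective (fun w : Fin n → Bool => w ∘ σ.symm) := by
      intro a b hab
      exact σ.symm.surjective.injective_comp_right hab
    have h2 : Finsupp.mapDomain (pushPerm d σ) x.1 = x.1 := by
      rw [pushPerm_eq]
      refine Finsupp.ext fun w => ?_
      have h5 := Finsupp.mapDomain_apply h4 x.1 (w ∘ σ)
      have h6 : (w ∘ σ) ∘ σ.symm = w := by
        funext i
        simp
      simp only [h6] at h5
      rw [h5]
      exact h _ _ (cnt_comp_perm w σ)
    exact Subtype.ext h2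

/-- The dimension of the invariants. -/
theorem finrank_invariants (n : ℕ) [DecidablePred fun j : ℕ => (n.choose j : k) = 0] :
    Module.finrank k (symRep (wordMod k d) n).invariants =
      ((Finset.range (n + 1)).filter fun j => (n.choose j : k) = 0).card := by
  classical
  let F := (Finset.range (n + 1)).filter fun j => (n.choose j : k) = 0
  let J := {j : ℕ // j ∈ F}
  let _ : Fintype J := FinsetCoe.fintype F
  have hval : ∀ x : LinearMap.ker (eps k (Fin n)),
      (∀ w w' : Fin n → Bool, cnt w = cnt w' → x.1 w = x.1 w') →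
      ∀ j ≤ n, (n.choose j : k) * x.1 (stdWord n j) = 0 := by
    intro x hx j hj
    have h1 : eps k (Fin n) x.1 j = 0 := by
      have := x.2
      rw [LinearMap.mem_ker] at this
      rw [this]
      rfl
    rw [eps_apply] at h1
    rw [← h1, ← Finset.sum_filter, ← card_cnt n j, ← nsmul_eq_mul, ← Finset.sum_const]
    refine Finset.sum_congr rfl fun w hw => ?_
    rw [Finset.mem_filter] at hw
    exact (hx _ _ (by rw [cnt_stdWord hj, hw.2]))
  let Φ : (symRep (wordMod k d) n).invariants →ₗ[k] (J → k) :=
    { toFun := fun x j => (show LinearMap.ker (eps k (Fin n)) from x.1).1 (stdWord n j.1)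
      map_add' := fun x y => rfl
      map_smul' := fun c x => rfl }
  have hinj : Function.Injective Φ := by
    rw [injective_iff_map_eq_zero]
    rintro ⟨x, hx⟩ h0
    let x' : LinearMap.ker (eps k (Fin n)) := x
    have hx' : ∀ w w' : Fin n → Bool, cnt w = cnt w' → x'.1 w = x'.1 w' :=
      (mem_invariants_iff k x').mp hx
    have h0' : ∀ j : J, x'.1 (stdWord n j.1) = 0 := fun j => congrFun h0 j
    have h1 : x'.1 = 0 := by
      ext w
      have h2 : x'.1 w = x'.1 (stdWord n (cnt w)) := hx' _ _ (by rw [cnt_stdWord (cnt_le w)])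
      rw [h2]
      by_cases h3 : (n.choose (cnt w) : k) = 0
      · exact h0' ⟨cnt w, by
          rw [Finset.mem_filter, Finset.mem_range]
          exact ⟨Nat.lt_succ_of_le (cnt_le w), h3⟩⟩
      · have h4 := hval x' hx' (cnt w) (cnt_le w)
        exact (mul_eq_zero.mp h4).resolve_left h3
    have h2 : x' = 0 := Subtype.ext h1
    exact Subtype.ext h2
  have hsurj : Function.Surjective Φ := by
    intro c
    let y : (Fin n → Bool) →₀ k := Finsupp.equivFunOnFinite.symm fun w =>
      if h : (n.choose (cnt w) : k) = 0 then c ⟨cnt w, by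
        rw [Finset.mem_filter, Finset.mem_range]
        exact ⟨Nat.lt_succ_of_le (cnt_le w), h⟩⟩ else 0
    have hy : ∀ w, y w = if h : (n.choose (cnt w) : k) = 0 then c ⟨cnt w, by
        rw [Finset.mem_filter, Finset.mem_range]
        exact ⟨Nat.lt_succ_of_le (cnt_le w), h⟩⟩ else 0 := fun w => rfl
    have hyinv : ∀ w w' : Fin n → Bool, cnt w = cnt w' → y w = y w' := by
      intro w w' h
      rw [hy, hy]
      simp only [h]
    have hyker : y ∈ LinearMap.ker (eps k (Fin n)) := by
      rw [LinearMap.mem_ker]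
      ext j
      rw [eps_apply, Finsupp.zero_apply]
      by_cases hj : j ≤ n
      · have h1 : (∑ w : Fin n → Bool, if cnt w = j then y w else 0) =
            (n.choose j : k) * y (stdWord n j) := by
          rw [← Finset.sum_filter, ← card_cnt n j, ← nsmul_eq_mul, ← Finset.sum_const]
          refine Finset.sum_congr rfl fun w hw => ?_
          rw [Finset.mem_filter] at hw
          exact (hyinv _ _ (by rw [cnt_stdWord hj, hw.2]))
        rw [h1]
        by_cases h2 : (n.choose j : k) = 0
        · rw [h2, zero_mul]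
        · rw [hy, dif_neg, mul_zero]
          rw [cnt_stdWord hj]
          exact h2
      · refine Finset.sum_eq_zero fun w _ => ?_
        rw [if_neg]
        intro h
        exact hj (h ▸ cnt_le w)
    let y' : LinearMap.ker (eps k (Fin n)) := ⟨y, hyker⟩
    refine ⟨⟨y', (mem_invariants_iff k y').mpr hyinv⟩, ?_⟩
    funext j
    show y (stdWord n j.1) = c j
    have hj := j.2
    rw [Finset.mem_filter, Finset.mem_range] at hj
    have hj' : cnt (stdWord n j.1) = j.1 := cnt_stdWord (Nat.lt_succ_iff.mp hj.1)
    rw [hy, dif_pos (by rw [hj']; exact hj.2)]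
    congr 1
    exact Subtype.ext hj'
  rw [LinearEquiv.finrank_eq (LinearEquiv.ofBijective Φ ⟨hinj, hsurj⟩), Module.finrank_fintype_fun_eq_card]
  exact Fintype.card_coe _

end invariants

/-! ### Binomial coefficients and the conclusion -/

section binomial

variable {p : ℕ} [hp : Fact p.Prime]

theorem not_dvd_choose_sub_one (k : ℕ) (hk : k < p) : ¬ p ∣ (p - 1).choose k := by
  intro h
  have h1 : k ≤ p - 1 := by omega
  have h2 := Nat.choose_mul_factorial_mul_factorial h1
  have h3 : p ∣ (p - 1).factorial := by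
    rw [← h2]
    exact (h.mul_right _).mul_right _
  rw [hp.out.dvd_factorial] at h3
  have := hp.out.two_le
  omega

/-- No binomial coefficient `C(p^r - 1, j)`, `j ≤ p^r - 1`, is divisible by `p`. -/
theorem not_dvd_choose_pow_sub_one (r : ℕ) : ∀ j ≤ p ^ r - 1, ¬ p ∣ (p ^ r - 1).choose j := by
  induction r with
  | zero =>
    intro j hj h
    have h0 : j = 0 := by simpa using hj
    subst h0
    simp at h
    exact hp.out.one_lt.ne' h
  | succ r ih =>
    intro j hj h
    have hp2 := hp.out.two_le
    have hpr : 1 ≤ p ^ r := Nat.one_le_pow _ _ (by omega)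
    obtain ⟨m, hm⟩ : ∃ m, p ^ r = m + 1 := ⟨p ^ r - 1, by omega⟩
    obtain ⟨q, hq⟩ : ∃ q, p = q + 1 := ⟨p - 1, by omega⟩
    have hn : p ^ (r + 1) - 1 = q + p * m := by
      rw [pow_succ, hm]
      have : (m + 1) * p = p * m + p := by ring
      omega
    have hmod : (p ^ (r + 1) - 1) % p = p - 1 := by
      rw [hn, Nat.add_mul_mod_self_left, Nat.mod_eq_of_lt] <;> omega
    have hdiv : (p ^ (r + 1) - 1) / p = p ^ r - 1 := by
      rw [hn, Nat.add_mul_div_left _ _ (by omega), Nat.div_eq_of_lt (by omega), hm]
      omega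
    have h1 := Choose.choose_modEq_choose_mod_mul_choose_div_nat (n := p ^ (r + 1) - 1) (k := j)
      (p := p)
    rw [hmod, hdiv] at h1
    have h2 : p ∣ (p - 1).choose (j % p) * (p ^ r - 1).choose (j / p) :=
      (Nat.ModEq.dvd_iff h1 dvd_rfl).mp h
    rcases hp.out.dvd_mul.mp h2 with h3 | h3
    · exact not_dvd_choose_sub_one (j % p) (Nat.mod_lt _ (by omega)) h3
    · refine ih (j / p) ?_ h3
      rw [← hdiv]
      exact Nat.div_le_div_right hj

/-- `p` divides `C(p^(r+1) N + p^r - 1, p^r)`. -/
theorem dvd_choose_aux (N : ℕ) (r : ℕ) : p ∣ (p ^ (r + 1) * N + (p ^ r - 1)).choose (p ^ r) := by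
  induction r with
  | zero => simp
  | succ r ih =>
    have hp2 := hp.out.two_le
    have hpr : 1 ≤ p ^ r := Nat.one_le_pow _ _ (by omega)
    obtain ⟨m, hm⟩ : ∃ m, p ^ r = m + 1 := ⟨p ^ r - 1, by omega⟩
    obtain ⟨q, hq⟩ : ∃ q, p = q + 1 := ⟨p - 1, by omega⟩
    have hn : p ^ (r + 1 + 1) * N + (p ^ (r + 1) - 1) = q + p * (p ^ (r + 1) * N + (p ^ r - 1)) := by
      have h1 : p ^ (r + 1) - 1 = q + p * (p ^ r - 1) := by
        rw [pow_succ, hm]
        have h2 : (m + 1) * p = p * m + p := by ring
        have h3 : m + 1 - 1 = m := by omega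
        rw [h3]
        omega
      rw [h1]
      ring
    have h1 := Choose.choose_modEq_choose_mod_mul_choose_div_nat
      (n := p ^ (r + 1 + 1) * N + (p ^ (r + 1) - 1)) (k := p ^ (r + 1)) (p := p)
    have hdiv : (p ^ (r + 1 + 1) * N + (p ^ (r + 1) - 1)) / p =
        p ^ (r + 1) * N + (p ^ r - 1) := by
      rw [hn, Nat.add_mul_div_left _ _ (by omega), Nat.div_eq_of_lt (by omega), zero_add]
    have hdiv' : p ^ (r + 1) / p = p ^ r := by
      rw [pow_succ, Nat.mul_div_cancel _ (by omega)]
    rw [hdiv, hdiv'] at h1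
    exact (Nat.ModEq.dvd_iff h1 dvd_rfl).mpr (ih.mul_left _)

/-- The number of binomial coefficients in the `n`-th row divisible by `p` is not eventually a
quasi-polynomial in `n`. -/
theorem count_not_quasi (f : ℕ → ℤ)
    (hf : ∀ n, f n = (((Finset.range (n + 1)).filter fun j => p ∣ n.choose j).card : ℤ)) (D : ℕ) :
    ¬ EventuallyQuasiPolynomial D f := by
  rintro ⟨g, ⟨N, hN, P, -, hP⟩, hfg⟩
  rw [Filter.eventually_atTop] at hfg
  obtain ⟨n₀, hn₀⟩ := hfg
  have hp2 := hp.out.two_le
  have hlt : ∀ r : ℕ, r < p ^ r := fun r => Nat.lt_pow_self hp.out.one_lt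
  -- the values at `p ^ r - 1` vanish
  have hzero : ∀ r, f (p ^ r - 1) = 0 := by
    intro r
    rw [hf]
    norm_cast
    rw [Finset.card_eq_zero, Finset.filter_eq_empty_iff]
    intro j hj
    rw [Finset.mem_range] at hj
    exact not_dvd_choose_pow_sub_one r j (by omega)
  obtain ⟨c, hc⟩ := Finite.exists_infinite_fiber
    (fun r : ℕ => (⟨(p ^ r - 1) % N, Nat.mod_lt _ hN⟩ : Fin N))
  rw [Set.infinite_coe_iff] at hc
  have hcmem : ∀ r ∈ ((fun r : ℕ => (⟨(p ^ r - 1) % N, Nat.mod_lt _ hN⟩ : Fin N)) ⁻¹' {c}),
      (p ^ r - 1) % N = c.1 := by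
    intro r hr
    exact congrArg Fin.val hr
  have hinj : Function.Injective (fun r : ℕ => ((p ^ r - 1 : ℕ) : ℚ)) := by
    intro a b hab
    have h1 : p ^ a - 1 = p ^ b - 1 := Nat.cast_injective (R := ℚ) hab
    have h2 : 1 ≤ p ^ a := Nat.one_le_pow _ _ (by omega)
    have h3 : 1 ≤ p ^ b := Nat.one_le_pow _ _ (by omega)
    exact Nat.pow_right_injective hp2 (show p ^ a = p ^ b by omega)
  have hPc : P c.1 = 0 := by
    apply Polynomial.eq_zero_of_infinite_isRoot
    have h1 : (((fun r : ℕ => (⟨(p ^ r - 1) % N, Nat.mod_lt _ hN⟩ : Fin N)) ⁻¹' {c}) \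
        {r | r < n₀ + 1}).Infinite := hc.sdiff (Set.finite_lt_nat _)
    refine (h1.image (hinj.injOn)).mono ?_
    rintro _ ⟨r, ⟨hr, hr'⟩, rfl⟩
    rw [Set.mem_ofPred_eq, not_lt] at hr'
    have h2 := hlt r
    have h3 : f (p ^ r - 1) = g (p ^ r - 1) := hn₀ _ (by omega)
    have h4 := hP (p ^ r - 1)
    rw [← h3, hzero, hcmem r hr] at h4
    show (P c.1).eval _ = 0
    rw [← h4]
    norm_num
  -- now find another point in the same class
  obtain ⟨r, hr, hr'⟩ := hc.exists_gt n₀
  have h2 := hlt r
  have hr1 := hcmem r hr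
  have h5 : (p ^ (r + 1) * N + (p ^ r - 1)) % N = c.1 := by
    rw [Nat.mul_add_mod_self_right, hr1]
  have h6 := hP (p ^ (r + 1) * N + (p ^ r - 1))
  rw [h5, hPc, Polynomial.eval_zero, ← hn₀ _ (by omega), hf] at h6
  have h7 : ((Finset.range (p ^ (r + 1) * N + (p ^ r - 1) + 1)).filter
      fun j => p ∣ (p ^ (r + 1) * N + (p ^ r - 1)).choose j).card = 0 := by
    exact_mod_cast h6
  rw [Finset.card_eq_zero, Finset.filter_eq_empty_iff] at h7
  refine h7 (x := p ^ r) ?_ (dvd_choose_aux N r)
  rw [Finset.mem_range]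
  have h8 : 1 ≤ p ^ (r + 1) * N := Nat.mul_pos (by positivity) hN
  omega

end binomial

/-- **Main result.** For every prime `p`, every field `k` of characteristic `p` and every `d ≥ 2`
there is a finitely generated `FI_d`-module `V` over `k` such that
`n ↦ dim_k H^0(S_n, V_n)` does not eventually agree with any quasi-polynomial (of any degree). -/
theorem result (p : ℕ) (hp : p.Prime) (k : Type) [Field k] [CharP k p] (d : ℕ) (hd : 2 ≤ d) :
    ∃ V : FIdModule k d, FinitelyGenerated V ∧
      ∀ D : ℕ, ¬ EventuallyQuasiPolynomial D (fun n => (cohDim V 0 n : ℤ)) := by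
  classical
  have hp' : Fact p.Prime := ⟨hp⟩
  refine ⟨wordMod k d, wordMod_fg k hd, fun D => ?_⟩
  refine count_not_quasi (p := p) _ (fun n => ?_) D
  have h1 : cohDim (wordMod k d) 0 n =
      Module.finrank k (symRep (wordMod k d) n).invariants :=
    LinearEquiv.finrank_eq (groupCohomology.H0Iso (Rep.of (symRep (wordMod k d) n))).toLinearEquiv
  rw [h1, finrank_invariants]
  congr 3
  ext j
  exact CharP.cast_eq_zero_iff k p _

end Pool.Agent.Results.MP_93a4b1_al.NotQuasiPolynomial
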